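import Mathlib
import Pool.Agent.H10.ThF

namespace Pool.Agent.Results.MP_f4dda6_al.Far

open Pool.Agent.H10.ThF unitInterval Filter Pointwise

section
variable {G : Type} [Group G]

/-- Right cosets `Hg`. -/
abbrev V (H : Subgroup G) := Quotient (QuotientGroup.rightRel H)

/-- The coset `Hg`. -/
def mk (H : Subgroup G) (g : G) : V H := Quotient.mk _ g

/-- `Hg ↦ Hgs`. -/
def act {H : Subgroup G} (v : V H) (s : G) : V H :=
  Quotient.map' (· * s) (fun x y h => by
    rw [QuotientGroup.rightRel_apply] at h ⊢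
    simpa using h) v

/-- The ball of radius `n` about `v` in the Schreier graph, orientation ignored. -/
def ball (S : Finset G) {H : Subgroup G} (v : V H) : ℕ → Set (V H)
  | 0 => {v}
  | n + 1 => ball S v n ∪ {y | ∃ x ∈ ball S v n, ∃ s ∈ S, act x s = y ∨ act y s = x}

/-- `v` is the centre of a copy of the Cayley ball of radius `n` inside `B(H, R)`. -/
def IsCopy (S : Finset G) (H : Subgroup G) (n R : ℕ) (v : V H) : Prop :=
  ball S v n ⊆ ball S (mk H 1) R ∧
    ∃ e : ball S v n ≃ ball S (mk ⊥ 1) n, (∀ x, x.1 = v → (e x).1 = mk ⊥ 1) ∧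
      ∀ x y, ∀ s ∈ S, act x.1 s = y.1 ↔ act (e x).1 s = (e y).1

/-- No finite set of nontrivial elements meets every conjugate of `H`. -/
def NonConfined (H : Subgroup G) : Prop :=
  ∀ P : Finset G, 1 ∉ P → ∃ g, ∀ p ∈ P, g⁻¹ * p * g ∉ H

variable {H : Subgroup G} (S : Finset G)

theorem act_mk (g s : G) : act (mk H g) s = mk H (g * s) := rfl

theorem act_mul (v : V H) (s r : G) : act (act v s) r = act v (s * r) := by
  induction v using Quotient.inductionOn
  exact congrArg (mk H) (mul_assoc _ _ _)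

theorem act_one (v : V H) : act v 1 = v := by
  induction v using Quotient.inductionOn
  exact congrArg (mk H) (mul_one _)

theorem mk_eq {g h : G} : mk H g = mk H h ↔ h * g⁻¹ ∈ H :=
  Quotient.eq.trans QuotientGroup.rightRel_apply

def T : Set G := {1} ∪ (S ∪ (S : Set G)⁻¹)

theorem T1 : (1 : G) ∈ T S := Or.inl rfl

theorem Tinv {n : ℕ} {g : G} (h : g ∈ T S ^ n) : g⁻¹ ∈ T S ^ n := by
  have : (T S)⁻¹ = T S := by simp [T, Set.union_comm]
  rw [← this, inv_pow]
  simpa using h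

theorem Tmul {m n : ℕ} {g h : G} (hg : g ∈ T S ^ m) (hh : h ∈ T S ^ n) : g * h ∈ T S ^ (m + n) :=
  pow_add (T S) m n ▸ Set.mul_mem_mul hg hh

theorem Tall (hS : Subgroup.closure (S : Set G) = ⊤) (g : G) : ∃ n, g ∈ T S ^ n := by
  have : g ∈ Subgroup.closure (S : Set G) := hS ▸ Subgroup.mem_top g
  induction this using Subgroup.closure_induction with
  | mem x hx => exact ⟨1, by rw [pow_one]; exact Or.inr (Or.inl hx)⟩
  | one => exact ⟨0, by simp⟩
  | mul x y _ _ hx hy => exact ⟨_, Tmul S hx.choose_spec hy.choose_spec⟩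
  | inv x _ hx => exact ⟨_, Tinv S hx.choose_spec⟩

theorem ball_sub (n : ℕ) : ∀ v ∈ ball S (mk H 1) n, ∃ g ∈ T S ^ n, v = mk H g := by
  induction n with
  | zero => exact fun v hv => ⟨1, by simp, hv⟩
  | succ n ih =>
    rintro v (hv | ⟨x, hx, s, hs, h | h⟩)
    · obtain ⟨g, hg, rfl⟩ := ih v hv
      exact ⟨g, Set.pow_subset_pow_right (T1 S) n.le_succ hg, rfl⟩
    · obtain ⟨g, hg, rfl⟩ := ih x hx
      exact ⟨g * s, pow_succ (T S) n ▸ Set.mul_mem_mul hg (Or.inr (Or.inl hs)), h.symm⟩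
    · obtain ⟨g, hg, rfl⟩ := ih x hx
      refine ⟨g * s⁻¹, pow_succ (T S) n ▸ Set.mul_mem_mul hg (Or.inr (Or.inr (by simpa))), ?_⟩
      rw [← act_mk, ← h, act_mul, mul_inv_cancel, act_one]

theorem ball_mono (v : V H) : Monotone (ball S v) :=
  monotone_nat_of_le_succ fun _ => Set.subset_union_left

theorem mem_ball (v : V H) (n : ℕ) : ∀ g ∈ T S ^ n, act v g ∈ ball S v n := by
  induction n with
  | zero => intro g hg; rw [show g = 1 by simpa using hg, act_one]; rfl
  | succ n ih =>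
    rw [pow_succ]
    rintro _ ⟨g, hg, s, rfl | hs | hs, rfl⟩
    · exact Or.inl (by simpa using ih g hg)
    · exact Or.inr ⟨_, ih g hg, s, hs, Or.inl (act_mul _ _ _)⟩
    · exact Or.inr ⟨_, ih g hg, s⁻¹, hs, Or.inr (by simp [act_mul])⟩

theorem copy {n R : ℕ} {v : V H} (h : IsCopy S H n R v) {g : G} (hg : g ∈ T S ^ n)
    (hv : act v g = v) : g = 1 := by
  obtain ⟨-, e, h1, h2⟩ := h
  have key : ∀ m ≤ n, ∀ g ∈ T S ^ m, ∀ x, x.1 = act v g → (e x).1 = mk ⊥ g := by
    intro m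
    induction m with
    | zero =>
      intro _ g hg x hx
      rw [show g = 1 by simpa using hg] at hx ⊢
      exact h1 x (hx.trans (act_one v))
    | succ m ih =>
      rw [pow_succ]
      rintro hm _ ⟨g, hg, s, hs, rfl⟩ x hx
      have h3 := ih (by omega) g hg ⟨_, ball_mono S v (by omega) (mem_ball S v m g hg)⟩ rfl
      rcases hs with rfl | hs | hs
      · simpa using ih (by omega) g hg x (by simpa using hx)
      · rw [← (h2 ⟨_, ball_mono S v (by omega) (mem_ball S v m g hg)⟩ x s hs).1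
          ((act_mul _ _ _).trans hx.symm), h3, act_mk]
      · have := (h2 x ⟨_, ball_mono S v (by omega) (mem_ball S v m g hg)⟩ s⁻¹ hs).1
          (by simp [hx, act_mul])
        rw [h3] at this
        simp only
        rw [← act_mk, ← this, act_mul, inv_mul_cancel, act_one]
  have a1 := key n le_rfl g hg ⟨_, mem_ball S v n g hg⟩ rfl
  rw [h1 _ hv] at a1
  simpa using mk_eq.1 a1

end

theorem pick (c k₁ : ℕ) (hc : 0 < c) : ∀ n, c * (2 * k₁ ^ 2 + 1) ≤ n →
    ∃ k, k₁ ≤ k ∧ c * (2 * k ^ 2 + 1) ≤ n ∧ n < c * (2 * (k + 1) ^ 2 + 1) := by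
  intro n hn
  have hm : ∀ k : ℕ, c * (2 * k ^ 2 + 1) < c * (2 * (k + 1) ^ 2 + 1) := fun k =>
    Nat.mul_lt_mul_of_pos_left (by
      have := Nat.pow_lt_pow_left k.lt_succ_self two_ne_zero
      simp only [Nat.succ_eq_add_one] at this
      omega) hc
  induction n, hn using Nat.le_induction with
  | base => exact ⟨k₁, le_rfl, le_rfl, hm _⟩
  | succ n _ ih =>
    obtain ⟨k, h1, h2, h3⟩ := ih
    rcases (Nat.succ_le_of_lt h3).lt_or_eq with h | h
    · exact ⟨k, h1, by omega, h⟩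
    · exact ⟨k + 1, by omega, h.ge, h.trans_lt (hm _)⟩

theorem tp_le (n : ℕ) (x : I) : (t ^ n).1 x ≤ x := by
  induction n with
  | zero => exact le_rfl
  | succ n ih => rw [pow_succ']; exact (t_le _).trans ih

theorem result (S : Finset F) (hS : Subgroup.closure (S : Set F) = ⊤) :
    ∃ H : Subgroup F, NonConfined H ∧
      ∀ K : ℕ, ∀ᶠ n : ℕ in atTop, ¬ ∃ v, IsCopy S H n (K * n) v := by
  classical
  let d := TopologicalSpace.denseSeq I
  have hfin : ∀ n, (T S ^ n).Finite := fun n => by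
    induction n with
    | zero => simp
    | succ n ih =>
      rw [pow_succ]
      exact ih.mul ((Set.toFinite _).union (S.finite_toSet.union S.finite_toSet.inv))
  have hN : ∀ j : ℕ, ∃ N : ℕ, ∀ g ∈ T S ^ (j ^ 3), ∀ l < j, d l < 1 →
      g.1 ((t ^ N).1 (d l)) < a := by
    intro j
    refine Eventually.exists (f := atTop) ((eventually_all_finite (hfin _)).2 fun g _ => ?_)
    refine (eventually_all_finite (Set.finite_Iio j)).2 fun l _ => ?_
    by_cases h : d l < 1
    · have h0 : 0 < g.1.symm a := by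
        rw [OrderIso.lt_symm_apply, show (0 : I) = ⊥ from rfl, g.1.map_bot]
        show (0 : ℝ) < 1 / 4
        norm_num
      exact (t_pow _ _ h h0).mono fun N hN _ => (OrderIso.lt_symm_apply _).1 hN
    · exact Eventually.of_forall fun _ h' => (h h').elim
  choose N hN using hN
  let H : Subgroup F :=
    { carrier := {h | ∀ j, ∀ l < j, d l < 1 → h.1 ((t ^ N j).1 (d l)) = (t ^ N j).1 (d l)}
      one_mem' := fun _ _ _ _ => rfl
      mul_mem' := fun {x y} hx hy j l h1 h2 => by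
        show x.1 (y.1 _) = _
        rw [hy j l h1 h2, hx j l h1 h2]
      inv_mem' := fun {x} hx j l h1 h2 => x.1.symm_apply_eq.2 (hx j l h1 h2).symm }
  refine ⟨H, fun P hP => ?_, fun K => ?_⟩
  · have : ∀ p : F, p ≠ 1 → ∃ l, p.1 (d l) ≠ d l := by
      intro p hp
      by_contra! h
      exact hp (Subtype.ext (OrderIso.ext ((TopologicalSpace.denseRange_denseSeq I).equalizer
        p.1.continuous continuous_id (funext h))))
    choose! l hl using this
    let j := P.sup l + 1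
    refine ⟨(t ^ N j)⁻¹, fun p hp h => ?_⟩
    have h1 := hl p (fun h => hP (h ▸ hp))
    have h2 := h j (l p) (Nat.lt_succ_of_le (Finset.le_sup hp))
      (lt_top_iff_ne_top.2 fun h => h1 (by rw [h]; exact p.1.map_top))
    refine h1 ((t ^ N j).1.injective ?_)
    rw [← h2, inv_inv]
    show _ = (t ^ N j).1 (p.1 ((t ^ N j).1.symm _))
    rw [OrderIso.symm_apply_apply]
  obtain ⟨c1, h1⟩ := Tall S hS t
  obtain ⟨c2, h2⟩ := Tall S hS b
  let c := c1 + c2 + 1
  replace h1 : t ∈ T S ^ c := Set.pow_subset_pow_right (T1 S) (by omega) h1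
  replace h2 : b ∈ T S ^ c := Set.pow_subset_pow_right (T1 S) (by omega) h2
  have h3 : ∀ i, t ^ i ∈ T S ^ (c * i) := fun i => pow_mul (T S) c i ▸ Set.pow_mem_pow h1
  filter_upwards [eventually_ge_atTop (c * (2 * (9 * K * c + 1) ^ 2 + 1))] with n hn
  rintro ⟨v, hv⟩
  obtain ⟨k, k1, k2, k3⟩ := pick c _ (by omega) n hn
  obtain ⟨g, hg, rfl⟩ := ball_sub S _ v (hv.1 (ball_mono S v n.zero_le rfl))
  have hR : K * n ≤ k ^ 3 := by
    have e1 : 2 * (k + 1) ^ 2 + 1 ≤ 9 * k ^ 2 := by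
      have : 1 ≤ k := by omega
      nlinarith
    calc K * n ≤ K * (c * (9 * k ^ 2)) := Nat.mul_le_mul_left _
          (k3.le.trans (Nat.mul_le_mul_left _ e1))
      _ = (9 * K * c) * k ^ 2 := by ring
      _ ≤ k * k ^ 2 := Nat.mul_le_mul_right _ (by omega)
      _ = k ^ 3 := by ring
  have key : ∀ i ∈ Finset.range (k ^ 2 + 1), ∃ q ∈ Finset.range k ×ˢ Finset.range k,
      a < (t ^ i).1 (g⁻¹.1 ((t ^ N q.1).1 (d q.2))) ∧
        (t ^ (i + 1)).1 (g⁻¹.1 ((t ^ N q.1).1 (d q.2))) < a := by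
    intro i hi
    have hi' : i ≤ k ^ 2 := Nat.lt_succ_iff.1 (Finset.mem_range.1 hi)
    have m1 : (t ^ i)⁻¹ * b * t ^ i ∈ T S ^ n := Set.pow_subset_pow_right (T1 S)
      (by nlinarith) (Tmul S (Tmul S (Tinv S (h3 i)) h2) (h3 i))
    have m2 : g * ((t ^ i)⁻¹ * b * t ^ i) * g⁻¹ ∉ H := fun h => b_ne (by
      have := copy S hv m1 (mk_eq.2 h).symm
      simpa [mul_assoc, inv_mul_eq_one] using this)
    simp only [H, Subgroup.mem_mk, Submonoid.mem_mk, Subsemigroup.mem_mk, Set.mem_ofPred_eq,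
      not_forall] at m2
    obtain ⟨j, l, hl, hd, m2⟩ := m2
    have m3 := b_fix ((t ^ i).1 (g⁻¹.1 ((t ^ N j).1 (d l)))) fun h => m2 (by
      show g.1 ((t ^ i).1.symm (b.1 ((t ^ i).1 (g⁻¹.1 _)))) = _
      rw [h, OrderIso.symm_apply_apply]
      exact g.1.apply_symm_apply _)
    have hj : j < k := by
      by_contra! hj
      have := hN j g⁻¹ (Set.pow_subset_pow_right (T1 S) (hR.trans (Nat.pow_le_pow_left hj 3))
        (Tinv S hg)) l hl hd
      exact absurd (m3.1.trans_le (tp_le _ _)) this.not_gt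
    exact ⟨(j, l), by simp [hj, hl.trans hj], m3.1, by rw [pow_succ']; exact m3.2⟩
  choose! q hq hq' using key
  obtain ⟨i, hi, i', hi', hne, he⟩ := Finset.exists_ne_map_eq_of_card_lt_of_maps_to
    (by simp [sq]) hq
  wlog hlt : i < i' generalizing i i'
  · exact this i' hi' i hi hne.symm he.symm (by omega)
  obtain ⟨r, rfl⟩ := Nat.exists_eq_add_of_lt hlt
  have a1 := (hq' i hi).2
  have a2 := (hq' _ hi').1
  rw [← he, show i + r + 1 = r + (i + 1) by ring, pow_add] at a2
  exact absurd (a2.trans_le (tp_le r _)) a1.not_gt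

end Pool.Agent.Results.MP_f4dda6_al.Far
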